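import Pool.Agent.Run7.h886.TG.Port
import Pool.Agent.Run7.h711.TG.Unr
import Pool.Agent.N738.PJ.Exs
import Pool.Agent.N615.JM.FamT2
import Pool.Agent.N615.JM.Tch
import Pool.Agent.N415.PJ.MAIN

/-!
# Many curves with discriminant prime to a given polynomial

The lemmas `not_dvd` and `many` of helper908 (`Results/MP_2a05c8_ag/TwistedFibreProducts.lean`), for the
definitions of `Run7/h886/TG/Port.lean`.
-/

set_option autoImplicit false
set_option linter.all false

namespace Run7.h283.PR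

open Polynomial Filter IsDedekindDomain
open scoped Classical Topology
open Pool.Agent.N352.PJ (Ht dsc)
open Run7.h886.TG (InFam)

variable {k : Type} [Field k]

/-- the discriminant is prime to every prime modulo which the polynomial is irreducible -/
theorem not_dvd [Finite k] {P : k[X]} (hPm : P.Monic) (hP : Irreducible P) {g : ℕ} {f A : k[X][X]}
    (hm : f.Monic) (hd : f.natDegree = 2 * g + 1)
    (hA : Irreducible (A.map (Ideal.Quotient.mk (Ideal.span {P}))))
    (hc : ∀ j, P ∣ f.coeff j - A.coeff j) : ¬ P ∣ dsc g f := by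
  have hmax : (Ideal.span {P}).IsMaximal :=
    PrincipalIdealRing.isMaximal_of_irreducible hP
  let _ : Field (k[X] ⧸ Ideal.span {P}) := Ideal.Quotient.field _
  have h1 : Module.Finite k (AdjoinRoot P) := hPm.finite_adjoinRoot
  have h2 : Finite (AdjoinRoot P) := Module.finite_of_finite k
  have hfin : Finite (k[X] ⧸ Ideal.span {P}) := h2
  set φ := Ideal.Quotient.mk (Ideal.span {P}) with hφ
  have h3 : f.map φ = A.map φ := by
    ext j
    rw [coeff_map, coeff_map, ← sub_eq_zero, ← map_sub, hφ, Ideal.Quotient.eq_zero_iff_mem,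
      Ideal.mem_span_singleton]
    exact hc j
  rw [← h3] at hA
  have h4 : (f.map φ).Separable := PerfectField.separable_of_irreducible hA
  intro h5
  have h6 : φ (f.resultant (derivative f) (2 * g + 1) (2 * g)) = 0 := by
    rw [hφ, Ideal.Quotient.eq_zero_iff_mem, Ideal.mem_span_singleton]
    exact h5
  rw [← resultant_map_map, ← derivative_map] at h6
  have hdeg : (f.map φ).natDegree = 2 * g + 1 := by rw [hm.natDegree_map, hd]
  obtain ⟨j, hj⟩ := Nat.exists_eq_add_of_le (m := (derivative (f.map φ)).natDegree) (n := 2 * g)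
    (by refine (natDegree_derivative_le _).trans ?_; rw [hdeg]; omega)
  have h7 := resultant_add_right_deg (f.map φ) (derivative (f.map φ)) (2 * g + 1)
    (derivative (f.map φ)).natDegree j le_rfl
  rw [← hj, h6] at h7
  have h8 : (f.map φ).coeff (2 * g + 1) = 1 := by
    rw [← hdeg]
    exact (hm.map φ).coeff_natDegree
  rw [h8, one_pow, one_mul, ← hdeg] at h7
  exact (resultant_eq_zero_iff.1 h7.symm).2 h4

/-- A positive proportion of all `f` is in the family with discriminant prime to `Δ`. -/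
theorem many [Finite k] (g : ℕ) (hg : 1 ≤ g) (hp : ((2 * g + 1).factorial : k) ≠ 0)
    (Δ : k[X]) (hΔ : Δ ≠ 0) : ∃ c : ℝ, 0 < c ∧ ∀ᶠ N : ℕ in atTop, 0 < {f : k[X][X] | Ht g (2 * N) f}.ncard ∧
    c * ({f : k[X][X] | Ht g (2 * N) f}.ncard : ℝ) ≤
      ({f : k[X][X] | InFam g N f ∧ IsCoprime Δ (dsc g f)}.ncard : ℝ) := by
  obtain ⟨r, hr⟩ := Pool.Agent.N738.PJ.gr g k hp
  obtain ⟨T, hTdef⟩ : ∃ T, T = Run7.h875.TS.prD Δ := ⟨_, rfl⟩
  have hT : ∀ P ∈ T, P.Monic ∧ Irreducible P := by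
    intro P hP
    rw [hTdef] at hP
    have := (Run7.h875.TS.mem_prD hΔ).1 hP
    exact ⟨this.1, this.2.1⟩
  obtain ⟨⟨A, hA⟩, -⟩ := Pool.Agent.N615.JM.tch g k hg hp T hT
  obtain ⟨c, hc, h⟩ := Pool.Agent.N615.JM.famt g k hg hp r hr T A hA
  obtain ⟨N₀, hN₀⟩ := h ∅ (fun _ => 0) (fun Q hQ => absurd hQ (Finset.notMem_empty Q))
    (Finset.disjoint_empty_left _)
  have hq : (0 : ℝ) < Nat.card k := by exact_mod_cast Nat.card_pos
  refine ⟨c / (Nat.card k : ℝ) ^ (2 * g), div_pos hc (pow_pos hq _), ?_⟩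
  filter_upwards [eventually_ge_atTop N₀] with N hN
  have h1 := hN₀ N hN
  rw [Finset.prod_empty, Nat.cast_one, one_mul] at h1
  obtain ⟨hfin, hle⟩ := Pool.Agent.N415.PJMAIN.ht_card (k := k) g (2 * N)
  have hsub : {f : k[X][X] | Pool.Agent.N874.JM.FamT g N r ∅ (fun _ => 0) T A f} ⊆
      {f : k[X][X] | InFam g N f ∧ IsCoprime Δ (dsc g f)} := by
    intro f hf
    refine ⟨InFam.of_fm hr hf.fam, ?_⟩
    refine isCoprime_of_irreducible_dvd (fun h0 => hΔ h0.1) fun z hz hzΔ hzd => ?_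
    have hz0 : z ≠ 0 := hz.ne_zero
    have hPm : (normalize z).Monic := Polynomial.monic_normalize hz0
    have hPi : Irreducible (normalize z) := (normalize_associated z).symm.irreducible hz
    have hPΔ : normalize z ∣ Δ := (normalize_associated z).dvd.trans hzΔ
    have hPd : normalize z ∣ dsc g f := (normalize_associated z).dvd.trans hzd
    have hPT : normalize z ∈ T := by
      rw [hTdef]
      exact (Run7.h875.TS.mem_prD hΔ).2 ⟨hPm, hPi, hPΔ⟩
    obtain ⟨-, -, -, -, -, hAi⟩ := hA _ hPT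
    exact not_dvd hPm hPi hf.fam.ht.mon hf.fam.ht.deg hAi (hf.con _ hPT) hPd
  have hsub2 : {f : k[X][X] | InFam g N f ∧ IsCoprime Δ (dsc g f)} ⊆
      {f : k[X][X] | Pool.Agent.N352.PJ.Ht g (2 * N) f} :=
    fun f hf => hf.1.ht
  have h2 := Set.ncard_le_ncard hsub (hfin.subset hsub2)
  have h3 := Set.ncard_le_ncard hsub2 hfin
  have h4 : (0 : ℝ) < c * (Nat.card k : ℝ) ^ (2 * N * Pool.Agent.N352.PJ.dd g) :=
    mul_pos hc (pow_pos hq _)
  have h5 : (({f : k[X][X] | Pool.Agent.N874.JM.FamT g N r ∅ (fun _ => 0) T A f}.ncard : ℕ) : ℝ) ≤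
      ({f : k[X][X] | InFam g N f ∧ IsCoprime Δ (dsc g f)}.ncard : ℝ) := by
    exact_mod_cast h2
  refine ⟨?_, ?_⟩
  · have h6 : (0 : ℝ) <
        ({f : k[X][X] | InFam g N f ∧ IsCoprime Δ (dsc g f)}.ncard : ℝ) := by linarith
    have h7 : 0 < {f : k[X][X] | InFam g N f ∧ IsCoprime Δ (dsc g f)}.ncard := by
      exact_mod_cast h6
    omega
  · refine le_trans ?_ (h1.trans h5)
    have h8 : ({f : k[X][X] | Pool.Agent.N352.PJ.Ht g (2 * N) f}.ncard : ℝ) ≤
        (Nat.card k : ℝ) ^ (2 * N * Pool.Agent.N352.PJ.dd g + 2 * g) := by exact_mod_cast hle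
    refine (mul_le_mul_of_nonneg_left h8 (div_nonneg hc.le (pow_nonneg hq.le _))).trans
      (le_of_eq ?_)
    rw [pow_add]
    field_simp

end Run7.h283.PR
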