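import Pool.Agent.Run7.h886.PL.Fin
import Pool.Agent.Run7.h886.PL.Bnd
import Pool.Agent.Run7.h283.PR.Many

/-!
# Definitions and lemmas for the ports of the projects JPL and PRL to the Tate conjecture (helper283)

The definitions of `Results/MP_021685_ag/TwistsOfSurfaces.lean`.
-/

set_option autoImplicit false
set_option linter.all false

namespace Run7.h283.PR

open Polynomial Filter IsDedekindDomain
open scoped Classical Topology
open Pool.Agent.N874.Jac (J mapJ Cochain Cocycle Coboundary power TrivialOver TrivialAtPrimes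
  UniquelyTwoDivisible ShaTwoTrivial)
open Pool.Agent.TH115.GD (CompInf)

section groups

variable (k : Type) {K : Type} [Field k] [Field K] [Algebra k[X] K] [IsFractionRing k[X] K]

/-- The class in `H ^ 1 (K, J)`, `J` the Jacobian of `y ^ 2 = F(x)`, of the cocycle `c` is zero over the
completions of `K = k(t)` at all places: at the maximal ideals of `k[t]` and at infinity. -/
structure IsZeroEverywhere {F : K[X]} (c : Cochain F) : Prop where
  finite : TrivialAtPrimes k[X] c
  infinite : TrivialOver (CompInf k K) c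

/-- The continuous cocycle `c` with values in `J(K^sep)` represents an element of `Sha(J)` which is
killed by two. -/
structure IsShaTwo {F : K[X]} (c : Cochain F) : Prop where
  cocycle : Cocycle c
  square : Coboundary (power c 2)
  everywhere : IsZeroEverywhere k c

/-- The group `Sha(J)[2]`, as a set: cocycles modulo coboundaries. For the Jacobian `J` of the generic fibre
of a surface `Y` over the projective line with a section it is `Br(Y)[2]`. -/
def BrauerTwo (F : K[X]) : Type :=
  Quot fun c c' : {c : Cochain F // IsShaTwo k c} =>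
    ∃ R : J F (SeparableClosure K), ∀ σ, c.1 σ = c'.1 σ * (mapJ F σ.toAlgHom R / R)

/-- The continuous cocycle `c` has values in `J[2 ^ n]` and its class is zero in `H ^ 1 (K_v, J)` for all
places `v`. -/
structure IsSelmer (n : ℕ) {F : K[X]} (c : Cochain F) : Prop where
  cocycle : Cocycle c
  torsion : ∀ σ, c σ ^ 2 ^ n = 1
  everywhere : IsZeroEverywhere k c

/-- The Selmer group `Sel(J, 2 ^ n)`, as a set: cocycles in `IsSelmer` modulo coboundaries of elements of
`J[2 ^ n]`. -/
def Selmer (n : ℕ) (F : K[X]) : Type :=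
  Quot fun c c' : {c : Cochain F // IsSelmer k n c} =>
    ∃ R : J F (SeparableClosure K), R ^ 2 ^ n = 1 ∧ ∀ σ, c.1 σ = c'.1 σ * (mapJ F σ.toAlgHom R / R)

/-- The number of the independent Tate classes which are not trivial: the corank of the 2-primary Selmer
group, the largest `r` such that `2 ^ (r n)` is at most a constant times the order of `Sel(J, 2 ^ n)`. -/
noncomputable def tateRank (F : K[X]) : ℕ :=
  sSup {r | ∃ C : ℝ, ∀ n : ℕ, (2 : ℝ) ^ (r * n) ≤ C * (Nat.card (Selmer k n F) : ℝ)}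

/-- The order of `J(K) / 2 J(K)` (written multiplicatively) times the order of `Sha(J)[2]`. If `J(K)` has
no element of order two, it is `2 ^ rank J(K) * #Br(Y)[2]`. -/
noncomputable def size (F : K[X]) : ℕ :=
  (powMonoidHom 2 : J F K →* J F K).range.index * Nat.card (BrauerTwo k F)

/-- The exponent of the power of two `size k F`. -/
noncomputable def sizeLog (F : K[X]) : ℕ := Nat.log 2 (size k F)

end groups

section defs

variable {k : Type} [Field k]

/-- The discriminant of the monic polynomial `f` of degree `2 g + 1` in `x` over `k[t]`, up to the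
sign: the resultant of `f` and its derivative. -/
noncomputable def discriminant (g : ℕ) (f : k[X][X]) : k[X] :=
  f.resultant (derivative f) (2 * g + 1) (2 * g)

/-- `f = x ^ (2 g + 1) + f_{2 g - 1} x ^ (2 g - 1) + ... + f_0` with `deg f_j ≤ M (2 g + 1 - j)`. -/
structure HasHeight (g M : ℕ) (f : k[X][X]) : Prop where
  monic : f.Monic
  degree : f.natDegree = 2 * g + 1
  trace : f.coeff (2 * g) = 0
  height : ∀ j ≤ 2 * g, (f.coeff j).natDegree ≤ M * (2 * g + 1 - j)

/-- The reduction of `f` at infinity, the polynomial `x ^ (2 g + 1) + ∑ r_j x ^ j` over `k` where `r_j`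
is the coefficient of `t ^ (M (2 g + 1 - j))` in `f_j`. -/
noncomputable def atInfinity (g M : ℕ) (f : k[X][X]) : k[X] :=
  X ^ (2 * g + 1) + ∑ j ∈ Finset.range (2 * g + 1), C ((f.coeff j).coeff (M * (2 * g + 1 - j))) * X ^ j

/-- The family of curves: squarefree discriminant, irreducible reduction at infinity. -/
structure InFamily (g N : ℕ) (f : k[X][X]) : Prop extends HasHeight g (2 * N) f where
  inert : Irreducible (atInfinity g (2 * N) f)
  squarefree : Squarefree (discriminant g f)

/-- The squarefree `D` of degree `m` with leading coefficient `u` which are prime to the discriminants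
of all the `f i`. -/
def Twists {ι : Type} (g : ι → ℕ) (f : ι → k[X][X]) (u : k) (m : ℕ) : Set k[X] :=
  {D | D.leadingCoeff = u ∧ D.natDegree = m ∧ Squarefree D ∧ ∀ i, IsCoprime D (discriminant (g i) (f i))}

/-- The monic equation `y ^ 2 = D ^ (2 g + 1) f(x / D)` of the quadratic twist `D y ^ 2 = f(x)` over
`K = k(t)`, the generic fibre of the surface `D(t) y ^ 2 = f(x, t)`. -/
noncomputable def twist (K : Type) [Field K] [Algebra k[X] K] (f : k[X][X]) (D : k[X]) : K[X] :=
  (f.scaleRoots D).map (algebraMap k[X] K)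

/-- The average of `φ D` over the `D` in the finite set `S`. -/
noncomputable def average (S : Set k[X]) (φ : k[X] → ℝ) : ℝ := (∑ᶠ D ∈ S, φ D) / (S.ncard : ℝ)

variable (K : Type) [Field K] [Algebra k[X] K] [IsFractionRing k[X] K] {ι : Type} (f : ι → k[X][X])

/-- The numbers `a_i(D)`, `i` in `ι`. -/
noncomputable def sizes (D : k[X]) (i : ι) : ℕ := sizeLog k (twist K (f i) D)

/-- The numbers `r_i(D)`, `i` in `ι`. -/
noncomputable def tateRanks (D : k[X]) (i : ι) : ℕ := tateRank k (twist K (f i) D)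

end defs

/-- The weights `w(d) = ∏_{j = 1} ^ d 2 / (2 ^ j - 1)`. -/
noncomputable def weight (d : ℕ) : ℝ := ∏ j ∈ Finset.range d, (2 : ℝ) / (2 ^ (j + 1) - 1)

/-- The probability `w(d) / W` of `d` for the limit law. -/
noncomputable def prob (d : ℕ) : ℝ := weight d / ∑' j, weight j

/-- The expectation of `φ` for the limit law, a product of copies of `prob`. -/
noncomputable def expectation {ι : Type} [Fintype ι] (φ : (ι → ℕ) → ℝ) : ℝ :=
  ∑' d : ι → ℕ, φ d * ∏ i, prob (d i)

/-- `φ` has at most exponential growth. -/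
def HasGrowth {ι : Type} [Fintype ι] (φ : (ι → ℕ) → ℝ) : Prop :=
  ∃ C y : ℝ, ∀ d, |φ d| ≤ C * y ^ (∑ i, d i)

section cmp

variable {k : Type} [Field k] {K : Type} [Field K] [Algebra k[X] K] [IsFractionRing k[X] K]

open Run7.h886.PL Run7.h886.TG Run7.h784.JP
open Run7.h286.PL (wt rkJ Lw)
open Run7.h286.PLC (SelH AllPl)

theorem inFam {g N : ℕ} {f : k[X][X]} (h : InFamily g N f) : InFam g N f :=
  ⟨⟨h.monic, h.degree, h.trace, h.height⟩, h.inert, h.squarefree⟩

theorem size_eq (F : K[X]) : size k F = (powMonoidHom 2 : J F K →* J F K).range.index *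
    Nat.card (ShaH F (AllPl k K)) := by
  unfold size
  congr 1
  exact card_shaH (p := fun c : Cochain F => IsShaTwo k c)
    (fun c => ⟨fun h => ⟨h.1, h.2, h.3.1, h.3.2⟩, fun h => ⟨h.1, h.2.1, ⟨h.2.2.1, h.2.2.2⟩⟩⟩)
    (fun c c' => Iff.rfl)

theorem sel_eq (n : ℕ) (F : K[X]) : Nat.card (Selmer k n F) =
    Nat.card (SelN F (2 ^ n) (AllPl k K)) := by
  have h : ∀ c : Cochain F, IsSelmer k n c ↔ SelCocN F (2 ^ n) (AllPl k K) c := by
    intro c
    constructor
    · rintro ⟨h1, h2, h3⟩
      exact ⟨h1, h2, loc_iff.2 ⟨h3.1, h3.2⟩⟩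
    · rintro ⟨h1, h2, h3⟩
      exact ⟨h1, h2, ⟨(loc_iff.1 h3).1, (loc_iff.1 h3).2⟩⟩
  exact Nat.card_congr (Quot.congr (Equiv.subtypeEquivRight h) fun _ _ => Iff.rfl)

variable {ι : Type} [Fintype ι] [Finite k] {g N : ι → ℕ} {f : ι → k[X][X]}

theorem jf (h2 : (2 : k) ≠ 0) (hg : ∀ i, 1 ≤ g i) (hN : ∀ i, 1 ≤ N i)
    (hf : ∀ i, InFamily (g i) (N i) (f i))
    (hc : ∀ i j, i ≠ j → IsCoprime (discriminant (g i) (f i)) (discriminant (g j) (f j))) :
    JF g N (fun i => atInf (g i) (2 * N i) (f i)) f :=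
  jf_of h2 hg hN (fun i => inFam (hf i)) hc

theorem size_pow {r : ι → k[X]} (h : JF g N r f) {u : k} (hu : u ≠ 0) {m : ℕ} {D : k[X]}
    (hD : D ∈ Twists g f u m) (i : ι) :
    size k (twist K (f i) D) = 2 ^ rkJ K ((f i).scaleRoots D) := by
  rw [size_eq]
  exact (one K h hu hD i).2.2.1

theorem sizes_eq {r : ι → k[X]} (h : JF g N r f) {u : k} (hu : u ≠ 0) {m : ℕ} {D : k[X]}
    (hD : D ∈ Twists g f u m) (i : ι) : sizes K f D i = rkJ K ((f i).scaleRoots D) := by
  unfold sizes sizeLog
  rw [size_pow h hu hD i, Nat.log_pow (by norm_num)]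

theorem sel_le {r : ι → k[X]} (h : JF g N r f) {u : k} (hu : u ≠ 0) {m : ℕ} {D : k[X]}
    (hD : D ∈ Twists g f u m) (i : ι) (n : ℕ) : Finite (Selmer k n (twist K (f i) D)) ∧
    Nat.card (Selmer k n (twist K (f i) D)) ≤ 2 ^ (sizes K f D i * n) := by
  have hD0 : D ≠ 0 := hD.2.2.1.ne_zero
  have hg := good_tw K (h.fm i) hD0
  have h1 := (one K h hu hD i).1
  have h2 : Nat.card (SelN (((f i).scaleRoots D).map (algebraMap k[X] K)) 2 (AllPl k K)) =
      2 ^ rkJ K ((f i).scaleRoots D) := by
    rw [card_selN]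
    exact h1
  have hfin : Finite (SelN (((f i).scaleRoots D).map (algebraMap k[X] K)) 2 (AllPl k K)) :=
    Nat.finite_of_card_ne_zero (by rw [h2]; positivity)
  obtain ⟨h3, h4⟩ := card_pow hg (AllPl k K) hfin n
  have h5 := sel_eq (k := k) n (twist K (f i) D)
  rw [h2, ← pow_mul] at h4
  rw [sizes_eq h hu hD i]
  refine ⟨?_, h5.le.trans h4⟩
  have h6 : Nonempty (SelN (((f i).scaleRoots D).map (algebraMap k[X] K)) (2 ^ n) (AllPl k K)) :=
    ⟨Quot.mk _ ⟨_, one_coc _ hg _⟩⟩
  refine Nat.finite_of_card_ne_zero ?_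
  rw [h5]
  exact Nat.card_ne_zero.2 ⟨h6, h3⟩

/-- The number of the Tate classes. -/
theorem tate_le {r : ι → k[X]} (h : JF g N r f) {u : k} (hu : u ≠ 0) {m : ℕ} {D : k[X]}
    (hD : D ∈ Twists g f u m) (i : ι) : tateRanks K f D i ≤ sizes K f D i := by
  refine csSup_le' ?_
  rintro s ⟨C, hC⟩
  by_contra hs
  push Not at hs
  obtain ⟨n, hn⟩ := pow_unbounded_of_one_lt C (one_lt_two : (1 : ℝ) < 2)
  have h1 := hC n
  obtain ⟨h2, h3⟩ := sel_le (K := K) h hu hD i n
  have h4 : (1 : ℝ) ≤ (Nat.card (Selmer k n (twist K (f i) D)) : ℝ) ∨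
      (Nat.card (Selmer k n (twist K (f i) D)) : ℝ) = 0 := by
    rcases Nat.eq_zero_or_pos (Nat.card (Selmer k n (twist K (f i) D))) with h0 | h0
    · right
      rw [h0, Nat.cast_zero]
    · left
      exact_mod_cast h0
  have h5 : (Nat.card (Selmer k n (twist K (f i) D)) : ℝ) ≤ (2 : ℝ) ^ (sizes K f D i * n) := by
    exact_mod_cast h3
  have h6 : (0 : ℝ) < (2 : ℝ) ^ (s * n) := by positivity
  have hC0 : 0 < C := by
    by_contra h7
    push Not at h7
    have h8 : C * (Nat.card (Selmer k n (twist K (f i) D)) : ℝ) ≤ 0 :=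
      mul_nonpos_of_nonpos_of_nonneg h7 (Nat.cast_nonneg _)
    linarith
  have h7 : (2 : ℝ) ^ (s * n) ≤ C * (2 : ℝ) ^ (sizes K f D i * n) :=
    h1.trans (mul_le_mul_of_nonneg_left h5 hC0.le)
  have h8 : (2 : ℝ) ^ (sizes K f D i * n) * 2 ^ n ≤ (2 : ℝ) ^ (s * n) := by
    rw [← pow_add]
    refine pow_le_pow_right₀ one_le_two ?_
    have h9 : sizes K f D i + 1 ≤ s := hs
    calc sizes K f D i * n + n = (sizes K f D i + 1) * n := by ring
      _ ≤ s * n := Nat.mul_le_mul_right _ h9
  have h9 : (0 : ℝ) < (2 : ℝ) ^ (sizes K f D i * n) := by positivity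
  have h10 : (2 : ℝ) ^ (sizes K f D i * n) * 2 ^ n ≤ (2 : ℝ) ^ (sizes K f D i * n) * C := by
    rw [mul_comm ((2 : ℝ) ^ (sizes K f D i * n)) C]
    exact h8.trans h7
  have h11 := le_of_mul_le_mul_left h10 h9
  linarith

theorem prob_sum (φ : ℕ → ℝ) : ∑' d, prob d * φ d = Lw φ := by
  unfold Lw
  rw [← tsum_div_const]
  refine tsum_congr fun d => ?_
  show wt d / _ * φ d = _
  rw [div_mul_eq_mul_div]
  rfl

theorem prob_nonneg (d : ℕ) : 0 ≤ prob d :=
  div_nonneg (Run7.h160.PL.num.1 d).le (tsum_nonneg fun j => (Run7.h160.PL.num.1 j).le)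

theorem total_pos : 0 < ∑' j, wt j := by
  have := (abs_lt.1 Run7.h886.PL.numbers.1).1
  linarith

theorem prob_one : ∑' d, prob d = 1 := by
  show ∑' d, wt d / ∑' j, wt j = 1
  rw [tsum_div_const, div_self total_pos.ne']

theorem prob_summable {ψ : ℕ → ℝ} (h : Summable fun d => wt d * ψ d) :
    Summable fun d => prob d * ψ d := by
  refine (h.div_const (∑' j, wt j)).congr fun d => ?_
  show _ = wt d / (∑' j, wt j) * ψ d
  rw [div_mul_eq_mul_div]

/-- The expectation of a function of one coordinate. -/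
theorem expectation_one {ι : Type} [Fintype ι] (i : ι) (ψ : ℕ → ℝ) (h0 : ∀ d, 0 ≤ ψ d)
    (hs : Summable fun d => wt d * ψ d) :
    expectation (fun d : ι → ℕ => ψ (d i)) = Lw ψ := by
  have hs1 : Summable fun d => prob d := by
    have := prob_summable (ψ := fun _ => 1) (by simpa using Run7.h160.PL.num.2.1)
    simpa using this
  have h1 := tsum_pi (ι := ι) (fun j d => if j = i then prob d * ψ d else prob d)
    (fun j d => by
      split_ifs
      · exact mul_nonneg (prob_nonneg d) (h0 d)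
      · exact prob_nonneg d)
    (fun j => by
      by_cases hj : j = i
      · simp only [if_pos hj]
        exact prob_summable hs
      · simp only [if_neg hj]
        exact hs1)
  have h2 : ∀ d : ι → ℕ, ∏ j, (if j = i then prob (d j) * ψ (d j) else prob (d j)) =
      ψ (d i) * ∏ j, prob (d j) := by
    intro d
    have h3 : ∀ j, (if j = i then prob (d j) * ψ (d j) else prob (d j)) =
        prob (d j) * (if j = i then ψ (d j) else 1) := by
      intro j
      split_ifs
      · rfl
      · rw [mul_one]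
    rw [Finset.prod_congr rfl fun j _ => h3 j, Finset.prod_mul_distrib, Finset.prod_ite_eq',
      if_pos (Finset.mem_univ i), mul_comm]
  unfold expectation
  rw [← tsum_congr h2, h1]
  have h4 : ∀ j, ∑' d, (if j = i then prob d * ψ d else prob d) =
      if j = i then Lw ψ else 1 := by
    intro j
    split_ifs
    · exact prob_sum ψ
    · exact prob_one
  rw [Finset.prod_congr rfl fun j _ => h4 j, Finset.prod_ite_eq', if_pos (Finset.mem_univ i)]

theorem average_le {S : Set k[X]} (hS : S.Finite) {φ ψ : k[X] → ℝ} (h : ∀ D ∈ S, φ D ≤ ψ D) :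
    average S φ ≤ average S ψ := by
  unfold average
  refine div_le_div_of_nonneg_right ?_ (Nat.cast_nonneg _)
  rw [finsum_mem_eq_finite_toFinset_sum _ hS, finsum_mem_eq_finite_toFinset_sum _ hS]
  exact Finset.sum_le_sum fun D hD => h D (hS.mem_toFinset.1 hD)

end cmp


/-- Many curves. -/
theorem many_fam {k : Type} [Field k] [Finite k] (g : ℕ) (hg : 1 ≤ g)
    (hp : (((2 * g + 1).factorial : ℕ) : k) ≠ 0) (Δ : k[X]) (hΔ : Δ ≠ 0) :
    ∃ c : ℝ, 0 < c ∧ ∀ᶠ N : ℕ in atTop, 0 < {f : k[X][X] | HasHeight g (2 * N) f}.ncard ∧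
      c * ({f : k[X][X] | HasHeight g (2 * N) f}.ncard : ℝ) ≤
        ({f : k[X][X] | InFamily g N f ∧ IsCoprime Δ (discriminant g f)}.ncard : ℝ) := by
  have h3 := Run7.h283.PR.many (k := k) g hg hp Δ hΔ
  have hset : ∀ N, {f : k[X][X] | HasHeight g (2 * N) f} =
      {f : k[X][X] | Pool.Agent.N352.PJ.Ht g (2 * N) f} := fun N =>
    Set.ext fun f => ⟨fun h => ⟨h.monic, h.degree, h.trace, h.height⟩,
      fun h => ⟨h.mon, h.deg, h.tr, h.ht⟩⟩
  have hset2 : ∀ N, {f : k[X][X] | InFamily g N f ∧ IsCoprime Δ (discriminant g f)} =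
      {f : k[X][X] | Run7.h886.TG.InFam g N f ∧ IsCoprime Δ (Pool.Agent.N352.PJ.dsc g f)} :=
    fun N => Set.ext fun f => ⟨fun h => ⟨inFam h.1, h.2⟩,
      fun h => ⟨⟨⟨h.1.ht.mon, h.1.ht.deg, h.1.ht.tr, h.1.ht.ht⟩, h.1.inert, h.1.sq⟩, h.2⟩⟩
  simp only [hset, hset2]
  exact h3

end Run7.h283.PR
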